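import Mathlib
import Pool.Agent.TH264.Bridge.PW

/-!
# MP_699bc8_an: the Bridge Theorem for amenable monoid actions on compact abelian groups

Full positive answer to Q1.  Let `K` be a compact Hausdorff abelian group, `S` any set,
`γ = (γ(s))_{s∈S}` any family of continuous endomorphisms of `K` (for instance a left action of a
cancellative left amenable monoid `S`), and `(F_i)` any net of non-empty finite subsets of `S` (for
instance a left Folner net).  Then
`sup_U limsup_i log N(U_{F_i})/|F_i| = sup_X limsup_i log |T_{F_i}(X)|/|F_i|`,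
the same with `liminf`, and the same with `lim` whenever the limits exist.

Proof. (B) For a finite open cover `U` and `η > 0` there is a finite `X ⊆ K^` with
`N(U_F) ≤ e^{η|F|} |T_F(X)|` for all finite `F`: take a neighbourhood `V` of `1` with every
`xVV⁻¹` inside a member of `U`, and a trigonometric polynomial `f` with frequencies in `X`,
`f(1) = 1` and `|f|² ≤ 1_V + β`; `f_F = ∏_{s∈F} f∘γ(s)` has frequencies in `T_F(X)`, so
`1 = |f_F(1)|² ≤ |T_F(X)| ∫ |f_F|² ≤ |T_F(X)| ∑_{E⊆F} β^{|F∖E|} μ(⋂_{s∈E} γ(s)⁻¹V)`, and packing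
gives `N(U_F) μ(⋂_{s∈E} γ(s)⁻¹V) ≤ |U|^{|F∖E|}`.
(A) For a finite non-empty `X ⊆ K^` and `η > 0` there is a finite open cover `U` with
`|T_F(X)| ≤ e^{η|F|} N(U_F)` for all finite non-empty `F`: if the characters of `X` vary by less
than `ε` on the members of `U`, then on a member of a subcover of `U_F` each `ξ ∈ T_F(X)` is a
constant times `∏_{s∈F} (1 + z_s)`, `|z_s| < ε`; expanding and keeping the terms with at most
`δ|F|` factors, all `ξ ∈ T_F(X)` are uniformly within `r < 1` of one space of dimension at most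
`N(U_F) ∑_{|A| ≤ δ|F|} |X|^{|A|}`, while characters are orthonormal.
-/

set_option autoImplicit false
set_option linter.unusedSectionVars false
open MeasureTheory Filter Topology Set
open scoped Pointwise InnerProductSpace

namespace Pool.Agent.Results.MP_699bc8_an.BridgeTheorem

/-- A finite open cover of `K`. -/
structure FinOpenCover (K : Type*) [TopologicalSpace K] where
  /-- the finite set of members of the cover -/
  sets : Finset (Set K)
  isOpen : ∀ u ∈ sets, IsOpen u
  cover : ⋃₀ (sets : Set (Set K)) = univ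

/-- `N(𝒰)`: the least size of a subcover of the cover `𝒰`. -/
noncomputable def minCard {K : Type*} (𝒰 : Set (Set K)) : ℕ :=
  sInf {n | ∃ C : Finset (Set K), (C : Set (Set K)) ⊆ 𝒰 ∧ ⋃₀ (C : Set (Set K)) = univ ∧ C.card = n}

variable {K : Type*} [CommGroup K] [TopologicalSpace K] [IsTopologicalGroup K] [CompactSpace K]
  [T2Space K] {S : Type*}

/-- The join `U_F = ⋁_{s∈F} γ(s)⁻¹ U`: its members are the sets `⋂_{s∈F} γ(s)⁻¹(c_s)`, `c_s ∈ U`. -/
def joinCover (γ : S → (K →ₜ* K)) (U : Set (Set K)) (F : Finset S) : Set (Set K) :=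
  {W | ∃ c : S → Set K, (∀ s ∈ F, c s ∈ U) ∧ W = ⋂ s ∈ F, γ s ⁻¹' c s}

/-- The trajectory `T_F(X) = ∑_{s∈F} X·s`, `X·s = {χ ∘ γ(s) | χ ∈ X}` (the dual group is written
multiplicatively, so the sumset is a pointwise product). -/
noncomputable def trajectory (γ : S → (K →ₜ* K)) (X : Finset (PontryaginDual K)) (F : Finset S) :
    Finset (PontryaginDual K) :=
  letI := Classical.decEq (PontryaginDual K)
  ∏ s ∈ F, X.image (PontryaginDual.map (γ s))

/-- `log N(U_F) / |F|`. -/
noncomputable def topRate (γ : S → (K →ₜ* K)) (U : FinOpenCover K) (F : Finset S) : EReal :=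
  ((Real.log (minCard (joinCover γ (U.sets : Set (Set K)) F)) / F.card : ℝ) : EReal)

/-- `log |T_F(X)| / |F|`. -/
noncomputable def algRate (γ : S → (K →ₜ* K)) (X : Finset (PontryaginDual K)) (F : Finset S) :
    EReal :=
  ((Real.log (trajectory γ X F).card / F.card : ℝ) : EReal)

/-- character as continuous map -/
noncomputable def chC (χ : PontryaginDual K) : C(K, ℂ) :=
  ⟨fun x => (χ x : ℂ), by fun_prop⟩


theorem card_mul_le_finrank {E : Type*} [NormedAddCommGroup E] [InnerProductSpace ℂ E]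
    {ι : Type*} (T : Finset ι) (e : ι → E) (he : Orthonormal ℂ e)
    (V : Submodule ℂ E) [FiniteDimensional ℂ V] (r : ℝ)
    (h : ∀ i ∈ T, ∃ g ∈ V, ‖e i - g‖ ≤ r) :
    (T.card : ℝ) * (1 - r ^ 2) ≤ Module.finrank ℂ V := by
  have key : ∀ i ∈ T, 1 - r ^ 2 ≤ ‖V.orthogonalProjectionOnto (e i)‖ ^ 2 := by
    intro i hi
    obtain ⟨g, hg, hr⟩ := h i hi
    have h1 := V.norm_sq_eq_add_norm_sq_projection (e i)
    rw [he.1 i] at h1
    have h2 : Vᗮ.orthogonalProjectionOnto (e i) = Vᗮ.orthogonalProjectionOnto (e i - g) := by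
      rw [map_sub]
      have : Vᗮ.orthogonalProjectionOnto g = 0 := by
        simp [hg]
      rw [this, sub_zero]
    have h3 : ‖Vᗮ.orthogonalProjectionOnto (e i)‖ ≤ r := by
      rw [h2]
      exact (Submodule.norm_orthogonalProjectionOnto_apply_le _ _).trans hr
    nlinarith [norm_nonneg (Vᗮ.orthogonalProjectionOnto (e i))]
  let b := stdOrthonormalBasis ℂ V
  have hb : ∀ i, ‖V.orthogonalProjectionOnto (e i)‖ ^ 2 =
      ∑ k, ‖⟪e i, (b k : E)⟫_ℂ‖ ^ 2 := by
    intro i
    rw [← b.sum_sq_norm_inner_right]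
    refine Finset.sum_congr rfl fun k _ => ?_
    congr 1
    rw [Submodule.inner_orthogonalProjectionOnto_eq_of_mem_left]
    rw [norm_inner_symm]
  calc (T.card : ℝ) * (1 - r ^ 2) = ∑ i ∈ T, (1 - r ^ 2) := by
        rw [Finset.sum_const, nsmul_eq_mul]
    _ ≤ ∑ i ∈ T, ‖V.orthogonalProjectionOnto (e i)‖ ^ 2 := Finset.sum_le_sum key
    _ = ∑ i ∈ T, ∑ k, ‖⟪e i, (b k : E)⟫_ℂ‖ ^ 2 := Finset.sum_congr rfl fun i _ => hb i
    _ = ∑ k, ∑ i ∈ T, ‖⟪e i, (b k : E)⟫_ℂ‖ ^ 2 := Finset.sum_comm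
    _ ≤ ∑ k : Fin (Module.finrank ℂ V), (1 : ℝ) := by
        refine Finset.sum_le_sum fun k _ => ?_
        refine (Orthonormal.sum_inner_products_le _ he).trans ?_
        have h1 : ‖(b k : E)‖ = 1 := b.orthonormal.1 k
        rw [h1]; norm_num
    _ = _ := by simp

theorem char_sep (k : K) (hk : k ≠ 1) : ∃ χ : PontryaginDual K, χ k ≠ 1 := by
  obtain ⟨χ, hc, h⟩ := Pool.Agent.TH264.Bridge.char_sep_mul K k hk
  exact ⟨(⟨χ, hc⟩ : K →ₜ* Circle), h⟩

/-- The span of the characters, as a star subalgebra. -/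
noncomputable def chAlg (K : Type*) [CommGroup K] [TopologicalSpace K] [IsTopologicalGroup K] [CompactSpace K]
  [T2Space K] : StarSubalgebra ℂ C(K, ℂ) where
  carrier := (Submodule.span ℂ (Set.range (chC (K := K))) : Set C(K, ℂ))
  mul_mem' := by
    intro a b ha hb
    have := Submodule.mul_mem_mul ha hb
    rw [Submodule.span_mul_span] at this
    refine Submodule.span_mono ?_ this
    rintro _ ⟨_, ⟨χ, rfl⟩, _, ⟨ψ, rfl⟩, rfl⟩
    exact ⟨χ * ψ, by ext x; rfl⟩
  add_mem' := fun ha hb => add_mem ha hb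
  algebraMap_mem' := by
    intro r
    have : algebraMap ℂ C(K, ℂ) r = r • chC (1 : PontryaginDual K) := by
      ext x
      simp [chC, Algebra.algebraMap_eq_smul_one]
    rw [this]
    exact Submodule.smul_mem _ _ (Submodule.subset_span ⟨1, rfl⟩)
  star_mem' := by
    intro a ha
    refine Submodule.span_induction (p := fun a _ => star a ∈ Submodule.span ℂ (Set.range (chC (K := K)))) ?_ ?_ ?_ ?_ ha
    · rintro _ ⟨χ, rfl⟩
      refine Submodule.subset_span ⟨χ⁻¹, ?_⟩
      ext x
      change (((χ x)⁻¹ : Circle) : ℂ) = _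
      rw [Circle.coe_inv_eq_conj]
      rfl
    · simp
    · intro x y _ _ hx hy
      rw [star_add]
      exact add_mem hx hy
    · intro c x _ hx
      rw [star_smul]
      exact Submodule.smul_mem _ _ hx

theorem exists_trig (V : Set K) (hV : IsOpen V) (h1 : (1 : K) ∈ V) {β : ℝ} (hβ : 0 < β) :
    ∃ (X : Finset (PontryaginDual K)) (f : C(K, ℂ)),
      f ∈ Submodule.span ℂ (chC '' (X : Set (PontryaginDual K))) ∧ f 1 = 1 ∧
      ∀ x, ‖f x‖ ^ 2 ≤ V.indicator 1 x + β := by
  classical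
  -- Urysohn
  obtain ⟨φ, hφ0, hφ1, hφ⟩ := exists_continuous_zero_one_of_isClosed (s := Vᶜ) (t := {1})
    hV.isClosed_compl isClosed_singleton (by simpa using h1)
  have hdense : (chAlg K).topologicalClosure = ⊤ := by
    apply ContinuousMap.starSubalgebra_topologicalClosure_eq_top_of_separatesPoints
    intro x y hxy
    obtain ⟨χ, hχ⟩ := char_sep (x * y⁻¹) (by rwa [ne_eq, mul_inv_eq_one])
    refine ⟨fun x => chC χ x, ⟨chC χ, Submodule.subset_span ⟨χ, rfl⟩, rfl⟩, ?_⟩
    intro h
    apply hχ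
    rw [map_mul, map_inv, mul_inv_eq_one]
    exact Circle.ext h
  set ε : ℝ := min 1 (β / 8) with hε
  have hε0 : 0 < ε := lt_min one_pos (by positivity)
  have hε1 : ε ≤ 1 := min_le_left _ _
  have hε2 : ε ≤ β / 8 := min_le_right _ _
  let φC : C(K, ℂ) := ⟨fun x => (φ x : ℂ), by fun_prop⟩
  have hmem : φC ∈ closure ((chAlg K : Set C(K, ℂ))) := by
    have : φC ∈ (chAlg K).topologicalClosure := by rw [hdense]; trivial
    exact this
  rw [Metric.mem_closure_iff] at hmem
  obtain ⟨f₀, hf₀, hdist⟩ := hmem ε hε0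
  have hf₀' : f₀ ∈ Submodule.span ℂ (Set.range (chC (K := K))) := hf₀
  let f : C(K, ℂ) := f₀ + (1 - f₀ 1) • chC 1
  have hf : f ∈ Submodule.span ℂ (Set.range (chC (K := K))) :=
    add_mem hf₀' (Submodule.smul_mem _ _ (Submodule.subset_span ⟨1, rfl⟩))
  have hd : ∀ x, ‖(φ x : ℂ) - f₀ x‖ ≤ ε := by
    intro x
    have := (ContinuousMap.dist_apply_le_dist (f := φC) (g := f₀) x).trans hdist.le
    rwa [dist_eq_norm] at this
  have hφ1' : φ 1 = 1 := hφ1 rfl
  have hfd : ∀ x, ‖f x - (φ x : ℂ)‖ ≤ 2 * ε := by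
    intro x
    have e : f x - (φ x : ℂ) = -((φ x : ℂ) - f₀ x) + ((φ 1 : ℂ) - f₀ 1) := by
      simp only [f, ContinuousMap.add_apply, ContinuousMap.smul_apply, smul_eq_mul]
      have : chC (1 : PontryaginDual K) x = 1 := rfl
      rw [this, hφ1']
      push_cast; ring
    rw [e]
    refine (norm_add_le _ _).trans ?_
    rw [norm_neg]
    linarith [hd x, hd 1]
  obtain ⟨X, hX⟩ : ∃ X : Finset (PontryaginDual K),
      f ∈ Submodule.span ℂ (chC '' (X : Set (PontryaginDual K))) := by
    obtain ⟨t, ht, hft⟩ := Submodule.mem_span_finite_of_mem_span hf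
    obtain ⟨X, hX, hXt⟩ := Finset.subset_set_image_iff.1 (by rwa [← Set.image_univ] at ht : (t : Set C(K, ℂ)) ⊆ chC '' Set.univ)
    refine ⟨X, ?_⟩
    rw [← hXt] at hft
    simpa using hft
  refine ⟨X, f, hX, ?_, ?_⟩
  · simp only [f, ContinuousMap.add_apply, ContinuousMap.smul_apply, smul_eq_mul]
    have : chC (1 : PontryaginDual K) 1 = 1 := rfl
    rw [this]; ring
  · intro x
    have h2 : ‖f x‖ ≤ φ x + 2 * ε := by
      calc ‖f x‖ = ‖(f x - (φ x : ℂ)) + (φ x : ℂ)‖ := by rw [sub_add_cancel]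
        _ ≤ ‖f x - (φ x : ℂ)‖ + ‖(φ x : ℂ)‖ := norm_add_le _ _
        _ ≤ 2 * ε + φ x := by
          gcongr
          · exact hfd x
          · rw [Complex.norm_real, Real.norm_of_nonneg (hφ x).1]
        _ = _ := by ring
    by_cases hx : x ∈ V
    · rw [Set.indicator_of_mem hx, Pi.one_apply]
      have h3 := (hφ x).2
      have h4 : ‖f x‖ ≤ 1 + 2 * ε := by linarith
      nlinarith [norm_nonneg (f x)]
    · rw [Set.indicator_of_notMem hx]
      have h3 : φ x = 0 := hφ0 hx
      rw [h3] at h2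
      nlinarith [norm_nonneg (f x)]

theorem exists_nhd (U : Finset (Set K)) (hU : ∀ u ∈ U, IsOpen u)
    (hc : ⋃₀ (U : Set (Set K)) = univ) :
    ∃ V : Set K, IsOpen V ∧ (1 : K) ∈ V ∧ ∀ x, ∃ u ∈ U, ∀ v ∈ V, ∀ w ∈ V, x * v * w⁻¹ ∈ u := by
  let _ : UniformSpace K := IsTopologicalGroup.rightUniformSpace K
  obtain ⟨W, hW, h⟩ := lebesgue_number_lemma (K := (univ : Set K)) (U := fun u : U => (u : Set K))
    isCompact_univ (fun u => hU u u.2) (by
      intro x _
      have : x ∈ ⋃₀ (U : Set (Set K)) := by rw [hc]; trivial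
      obtain ⟨u, hu, hx⟩ := this
      exact mem_iUnion.2 ⟨⟨u, hu⟩, hx⟩)
  rw [uniformity_eq_comap_nhds_one', mem_comap] at hW
  obtain ⟨N, hN, hNW⟩ := hW
  obtain ⟨V, hV, hVN⟩ := exists_nhds_split_inv hN
  refine ⟨interior V, isOpen_interior, mem_interior_iff_mem_nhds.2 hV, fun x => ?_⟩
  obtain ⟨u, hu⟩ := h x trivial
  refine ⟨u, u.2, fun v hv w hw => hu ?_⟩
  apply hNW
  change x * v * w⁻¹ * x⁻¹ ∈ N
  have : x * v * w⁻¹ * x⁻¹ = v / w := by
    rw [div_eq_mul_inv, mul_assoc x, mul_comm x, mul_inv_cancel_right]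
  rw [this]
  exact hVN v (interior_subset hv) w (interior_subset hw)



section Meas

variable [MeasurableSpace K] [BorelSpace K]

theorem integral_char_eq_zero (μ : Measure K) [μ.IsMulLeftInvariant] (χ : PontryaginDual K)
    (h : χ ≠ 1) : ∫ x, (χ x : ℂ) ∂μ = 0 := by
  obtain ⟨y, hy⟩ : ∃ y, χ y ≠ 1 := by
    by_contra hcon
    push Not at hcon
    exact h (PontryaginDual.ext hcon)
  have h1 := integral_mul_left_eq_self (μ := μ) (fun x => (χ x : ℂ)) y
  simp only [map_mul, Circle.coe_mul] at h1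
  rw [integral_const_mul] at h1
  have h2 : ((χ y : ℂ) - 1) * ∫ x, (χ x : ℂ) ∂μ = 0 := by
    rw [sub_mul, h1, one_mul, sub_self]
  rcases mul_eq_zero.1 h2 with h3 | h3
  · exfalso
    apply hy
    ext
    rw [Circle.coe_one]
    exact sub_eq_zero.1 h3
  · exact h3

theorem orthonormal_char (μ : Measure K) [μ.IsMulLeftInvariant] [IsProbabilityMeasure μ] :
    Orthonormal ℂ (fun χ : PontryaginDual K => ContinuousMap.toLp 2 μ ℂ (chC χ)) := by
  classical
  rw [orthonormal_iff_ite]
  intro χ ψ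
  rw [ContinuousMap.inner_toLp]
  have h1 : ∀ x, (chC ψ) x * (starRingEnd ℂ) ((chC χ) x) = ((ψ * χ⁻¹ : PontryaginDual K) x : ℂ) := by
    intro x
    have h2 : (ψ * χ⁻¹ : PontryaginDual K) x = ψ x * (χ x)⁻¹ := rfl
    rw [h2, Circle.coe_mul, Circle.coe_inv_eq_conj]
    rfl
  simp_rw [h1]
  by_cases h : χ = ψ
  · subst h
    simp
  · rw [if_neg h]
    apply integral_char_eq_zero
    intro h3
    exact h (mul_inv_eq_one.1 h3).symm

theorem packing (μ : Measure K) [IsProbabilityMeasure μ] [μ.IsMulLeftInvariant] (V : Set K)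
    (hV : MeasurableSet V) (hpos : 0 < μ.real V) :
    ∃ A : Finset K, (A.card : ℝ) * μ.real V ≤ 1 ∧
      ∀ y, ∃ x ∈ A, ∃ v ∈ V, ∃ w ∈ V, y = x * v * w⁻¹ := by
  classical
  let P : Finset K → Prop := fun A =>
    (A : Set K).PairwiseDisjoint (fun x => (fun z => x⁻¹ * z) ⁻¹' V)
  have hP : ∀ A, P A → (A.card : ℝ) * μ.real V ≤ 1 := by
    intro A hA
    have h1 : μ.real (⋃ x ∈ A, (fun z => x⁻¹ * z) ⁻¹' V) = ∑ x ∈ A, μ.real ((fun z => x⁻¹ * z) ⁻¹' V) := by
      apply measureReal_biUnion_finset hA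
      intro x _
      exact (measurable_const_mul _) hV
    have h2 : ∀ x : K, μ.real ((fun z => x⁻¹ * z) ⁻¹' V) = μ.real V := by
      intro x
      rw [measureReal_def, measure_preimage_mul]
      rfl
    simp only [h2, Finset.sum_const, nsmul_eq_mul] at h1
    rw [← h1]
    exact measureReal_le_one
  have hbdd : BddAbove {n | ∃ A, P A ∧ A.card = n} := by
    refine ⟨⌊1 / μ.real V⌋₊, ?_⟩
    rintro _ ⟨A, hA, rfl⟩
    apply Nat.le_floor
    rw [le_div_iff₀ hpos]
    exact hP A hA
  have hne : {n | ∃ A, P A ∧ A.card = n}.Nonempty := ⟨0, ∅, by simp [P], rfl⟩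
  obtain ⟨A, hA, hAc⟩ := Nat.sSup_mem hne hbdd
  refine ⟨A, hP A hA, fun y => ?_⟩
  by_contra hcon
  push Not at hcon
  obtain ⟨v0, hv0⟩ : V.Nonempty := by
    by_contra h
    rw [Set.not_nonempty_iff_eq_empty] at h
    rw [h] at hpos
    simp at hpos
  have hyA : y ∉ A := by
    intro hy
    exact hcon y hy v0 hv0 v0 hv0 (by group)
  have hins : P (insert y A) := by
    simp only [P, Finset.coe_insert]
    rw [Set.pairwiseDisjoint_insert_of_notMem (by simpa using hyA)]
    refine ⟨hA, fun x hx => ?_⟩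
    rw [Set.disjoint_left]
    intro z hz1 hz2
    apply hcon x hx (x⁻¹ * z) hz2 (y⁻¹ * z) hz1
    group
  have hle : (insert y A).card ≤ A.card := by
    rw [hAc]
    exact le_csSup hbdd ⟨_, hins, rfl⟩
  rw [Finset.card_insert_of_notMem hyA] at hle
  omega



theorem minCard_le {𝒰 : Set (Set K)} (C : Finset (Set K)) (h1 : (C : Set (Set K)) ⊆ 𝒰)
    (h2 : ⋃₀ (C : Set (Set K)) = univ) : minCard 𝒰 ≤ C.card :=
  Nat.sInf_le ⟨C, h1, h2, rfl⟩

theorem cover_bound (μ : Measure K) [IsProbabilityMeasure μ] [μ.IsMulLeftInvariant]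
    [μ.IsOpenPosMeasure] (γ : S → (K →ₜ* K)) (U : Finset (Set K))
    (hc : ⋃₀ (U : Set (Set K)) = univ) (V : Set K) (hVo : IsOpen V) (hV1 : (1 : K) ∈ V)
    (hV : ∀ x, ∃ u ∈ U, ∀ v ∈ V, ∀ w ∈ V, x * v * w⁻¹ ∈ u) (F E : Finset S) [DecidableEq S] :
    (minCard (joinCover γ (U : Set (Set K)) F) : ℝ) * μ.real (⋂ s ∈ E, γ s ⁻¹' V) ≤
      (U.card : ℝ) ^ (F \ E).card := by
  classical
  have hopen : IsOpen (⋂ s ∈ E, γ s ⁻¹' V) :=
    isOpen_biInter_finset fun s _ => hVo.preimage (γ s).continuous_toFun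
  have h1mem : (1 : K) ∈ ⋂ s ∈ E, γ s ⁻¹' V := by
    simp only [mem_iInter, mem_preimage, map_one]
    exact fun _ _ => hV1
  have hpos : 0 < μ.real (⋂ s ∈ E, γ s ⁻¹' V) :=
    ENNReal.toReal_pos (hopen.measure_pos μ ⟨1, h1mem⟩).ne' (measure_ne_top _ _)
  obtain ⟨A, hA, hcov⟩ := packing μ _ hopen.measurableSet hpos
  choose u huU hu using hV
  choose w hw using fun y : K => (by
    have : y ∈ ⋃₀ (U : Set (Set K)) := by rw [hc]; trivial
    exact this : ∃ t ∈ (U : Set (Set K)), y ∈ t)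
  let cc : K × ((a : S) → a ∈ F \ E → Set K) → S → Set K := fun p s =>
    if h : s ∈ F \ E then p.2 s h else u (γ s p.1)
  let C : Finset (Set K) := (A ×ˢ (F \ E).pi (fun _ => U)).image
    (fun p => ⋂ s ∈ F, γ s ⁻¹' cc p s)
  have hCcard : C.card ≤ A.card * U.card ^ (F \ E).card := by
    refine Finset.card_image_le.trans ?_
    rw [Finset.card_product, Finset.card_pi, Finset.prod_const]
  have hCsub : (C : Set (Set K)) ⊆ joinCover γ (U : Set (Set K)) F := by
    intro W hW
    rw [Finset.mem_coe, Finset.mem_image] at hW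
    obtain ⟨p, hp, rfl⟩ := hW
    rw [Finset.mem_product, Finset.mem_pi] at hp
    refine ⟨cc p, fun s _ => ?_, rfl⟩
    simp only [cc]
    split_ifs with h
    · exact hp.2 s h
    · exact huU _
  have hCcov : ⋃₀ (C : Set (Set K)) = univ := by
    rw [eq_univ_iff_forall]
    intro y
    obtain ⟨x, hx, v, hv, z, hz, hy⟩ := hcov y
    let p : K × ((a : S) → a ∈ F \ E → Set K) := (x, fun s _ => w (γ s y))
    refine ⟨⋂ s ∈ F, γ s ⁻¹' cc p s, ?_, ?_⟩
    · rw [Finset.mem_coe, Finset.mem_image]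
      refine ⟨p, ?_, rfl⟩
      rw [Finset.mem_product, Finset.mem_pi]
      exact ⟨hx, fun s _ => (hw (γ s y)).1⟩
    · simp only [mem_iInter, mem_preimage]
      intro s hs
      simp only [cc]
      split_ifs with h
      · exact (hw (γ s y)).2
      · have hsE : s ∈ E := by
          by_contra hsE
          exact h (Finset.mem_sdiff.2 ⟨hs, hsE⟩)
        simp only [mem_iInter, mem_preimage] at hv hz
        have := hu (γ s x) (γ s v) (hv s hsE) (γ s z) (hz s hsE)
        rw [hy, map_mul, map_mul, map_inv]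
        exact this
  have hle := minCard_le C hCsub hCcov
  calc (minCard (joinCover γ (U : Set (Set K)) F) : ℝ) * μ.real (⋂ s ∈ E, γ s ⁻¹' V)
      ≤ ((A.card * U.card ^ (F \ E).card : ℕ) : ℝ) * μ.real (⋂ s ∈ E, γ s ⁻¹' V) := by
        gcongr
        exact_mod_cast hle.trans hCcard
    _ = (A.card * μ.real (⋂ s ∈ E, γ s ⁻¹' V)) * (U.card : ℝ) ^ (F \ E).card := by
        push_cast; ring
    _ ≤ 1 * (U.card : ℝ) ^ (F \ E).card := by gcongr
    _ = _ := one_mul _

theorem integral_bound (μ : Measure K) [IsProbabilityMeasure μ] [μ.IsMulLeftInvariant]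
    [μ.IsOpenPosMeasure] (γ : S → (K →ₜ* K)) (U : Finset (Set K))
    (hc : ⋃₀ (U : Set (Set K)) = univ) (V : Set K) (hVo : IsOpen V) (hV1 : (1 : K) ∈ V)
    (hV : ∀ x, ∃ u ∈ U, ∀ v ∈ V, ∀ w ∈ V, x * v * w⁻¹ ∈ u) (F : Finset S) {β : ℝ} (hβ : 0 ≤ β) :
    (minCard (joinCover γ (U : Set (Set K)) F) : ℝ) *
      ∫ x, ∏ s ∈ F, (V.indicator (1 : K → ℝ) (γ s x) + β) ∂μ ≤ (1 + β * U.card) ^ F.card := by
  classical
  have hm : ∀ E : Finset S, MeasurableSet (⋂ s ∈ E, γ s ⁻¹' V) := fun E =>
    (isOpen_biInter_finset fun s _ => hVo.preimage (γ s).continuous_toFun).measurableSet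
  have hprod : ∀ (E : Finset S) (x : K), ∏ s ∈ E, V.indicator (1 : K → ℝ) (γ s x) =
      (⋂ s ∈ E, γ s ⁻¹' V).indicator (1 : K → ℝ) x := by
    intro E x
    by_cases hx : x ∈ ⋂ s ∈ E, γ s ⁻¹' V
    · rw [indicator_of_mem hx]
      simp only [mem_iInter, mem_preimage] at hx
      rw [Finset.prod_congr rfl (fun s hs => indicator_of_mem (hx s hs) _)]
      simp
    · rw [indicator_of_notMem hx]
      simp only [mem_iInter, mem_preimage, not_forall] at hx
      obtain ⟨s, hs, hsx⟩ := hx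
      exact Finset.prod_eq_zero hs (indicator_of_notMem hsx _)
  have hint : ∫ x, ∏ s ∈ F, (V.indicator (1 : K → ℝ) (γ s x) + β) ∂μ =
      ∑ E ∈ F.powerset, μ.real (⋂ s ∈ E, γ s ⁻¹' V) * β ^ (F \ E).card := by
    simp_rw [Finset.prod_add, hprod, Finset.prod_const]
    rw [integral_finsetSum]
    · refine Finset.sum_congr rfl fun E _ => ?_
      rw [integral_mul_const, integral_indicator_one (hm E)]
    · intro E _
      apply Integrable.mul_const
      exact (integrable_const (1 : ℝ)).indicator (hm E)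
  rw [hint, Finset.mul_sum]
  calc ∑ E ∈ F.powerset, (minCard (joinCover γ (U : Set (Set K)) F) : ℝ) *
        (μ.real (⋂ s ∈ E, γ s ⁻¹' V) * β ^ (F \ E).card)
      ≤ ∑ E ∈ F.powerset, (1 : ℝ) ^ E.card * (β * U.card) ^ (F.card - E.card) := by
        refine Finset.sum_le_sum fun E hE => ?_
        have hE' := Finset.mem_powerset.1 hE
        rw [← Finset.card_sdiff_of_subset hE', one_pow, one_mul, mul_pow, ← mul_assoc, mul_comm (β ^ _)]
        exact mul_le_mul_of_nonneg_right (cover_bound μ γ U hc V hVo hV1 hV F E) (by positivity)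
    _ = _ := Finset.sum_pow_mul_eq_add_pow _ _ _


theorem prod_comp_mem (γ : S → (K →ₜ* K)) (X : Finset (PontryaginDual K)) (F : Finset S)
    (f : C(K, ℂ)) (hf : f ∈ Submodule.span ℂ (chC '' (X : Set (PontryaginDual K)))) :
    ∏ s ∈ F, f.comp (γ s : C(K, K)) ∈
      Submodule.span ℂ (chC '' (trajectory γ X F : Set (PontryaginDual K))) := by
  classical
  have h1 : ∀ s, f.comp (γ s : C(K, K)) ∈
      Submodule.span ℂ (chC '' (X.image (PontryaginDual.map (γ s)) : Set (PontryaginDual K))) := by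
    intro s
    have h2 := Submodule.mem_map_of_mem (f := (ContinuousMap.compRightAlgHom ℂ ℂ (γ s : C(K, K))).toLinearMap) hf
    rw [Submodule.map_span] at h2
    refine Submodule.span_mono ?_ h2
    rintro _ ⟨_, ⟨χ, hχ, rfl⟩, rfl⟩
    exact ⟨PontryaginDual.map (γ s) χ, by simpa using ⟨χ, hχ, rfl⟩, rfl⟩
  have hT : ∀ G : Finset S, trajectory γ X G = ∏ s ∈ G, X.image (PontryaginDual.map (γ s)) := by
    intro G
    unfold trajectory
    congr!
  rw [hT]
  induction F using Finset.induction_on with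
  | empty =>
    simp only [Finset.prod_empty]
    refine Submodule.subset_span ⟨1, ?_, rfl⟩
    simp
  | insert s F hs ih =>
    rw [Finset.prod_insert hs, Finset.prod_insert hs]
    have h3 := Submodule.mul_mem_mul (h1 s) ih
    rw [Submodule.span_mul_span] at h3
    refine Submodule.span_mono ?_ h3
    rintro _ ⟨_, ⟨χ, hχ, rfl⟩, _, ⟨ψ, hψ, rfl⟩, rfl⟩
    exact ⟨χ * ψ, Finset.mul_mem_mul hχ hψ, rfl⟩

theorem norm_eval_one_sq_le (μ : Measure K) [IsProbabilityMeasure μ] [μ.IsMulLeftInvariant]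
    (T : Finset (PontryaginDual K)) (g : C(K, ℂ))
    (hg : g ∈ Submodule.span ℂ (chC '' (T : Set (PontryaginDual K)))) :
    ‖g 1‖ ^ 2 ≤ T.card * ∫ x, ‖g x‖ ^ 2 ∂μ := by
  obtain ⟨c, rfl⟩ := (Submodule.mem_span_image_finset_iff_exists_fun' ℂ).1 hg
  set g : C(K, ℂ) := ∑ i ∈ T, c i • chC i with hgdef
  have h1 : g 1 = ∑ i ∈ T, c i := by
    rw [hgdef, ContinuousMap.sum_apply]
    refine Finset.sum_congr rfl fun i _ => ?_
    simp [chC]
  have h2 : ContinuousMap.toLp 2 μ ℂ g = ∑ i ∈ T, c i • ContinuousMap.toLp 2 μ ℂ (chC i) := by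
    rw [hgdef, map_sum]
    simp_rw [map_smul]
  have h3 := (orthonormal_char μ).inner_sum c c T
  rw [← h2, ContinuousMap.inner_toLp] at h3
  have h4 : ∫ x, ‖g x‖ ^ 2 ∂μ = ∑ i ∈ T, ‖c i‖ ^ 2 := by
    have e1 : ∫ x, g x * (starRingEnd ℂ) (g x) ∂μ = ((∫ x, ‖g x‖ ^ 2 ∂μ : ℝ) : ℂ) := by
      rw [← integral_complex_ofReal]
      refine integral_congr_ae (Eventually.of_forall fun x => ?_)
      simp only [Complex.mul_conj, Complex.normSq_eq_norm_sq]
    have e2 : ∑ i ∈ T, (starRingEnd ℂ) (c i) * c i = ((∑ i ∈ T, ‖c i‖ ^ 2 : ℝ) : ℂ) := by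
      push_cast
      refine Finset.sum_congr rfl fun i _ => ?_
      rw [Complex.conj_mul']
    rw [e1, e2] at h3
    exact_mod_cast h3
  rw [h1, h4]
  calc ‖∑ i ∈ T, c i‖ ^ 2 ≤ (∑ i ∈ T, ‖c i‖) ^ 2 := by
        gcongr
        exact norm_sum_le _ _
    _ ≤ T.card * ∑ i ∈ T, ‖c i‖ ^ 2 := sq_sum_le_card_mul_sum_sq



theorem upper_B (μ : Measure K) [IsProbabilityMeasure μ] [μ.IsMulLeftInvariant]
    [μ.IsOpenPosMeasure] (γ : S → (K →ₜ* K)) (U : Finset (Set K)) (hU : ∀ u ∈ U, IsOpen u)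
    (hc : ⋃₀ (U : Set (Set K)) = univ) {η : ℝ} (hη : 0 < η) :
    ∃ X : Finset (PontryaginDual K), X.Nonempty ∧ ∀ F : Finset S,
      (minCard (joinCover γ (U : Set (Set K)) F) : ℝ) ≤
        Real.exp (η * F.card) * (trajectory γ X F).card := by
  classical
  obtain ⟨V, hVo, hV1, hV⟩ := exists_nhd U hU hc
  have hUc : 0 < (U.card : ℝ) := by
    obtain ⟨u, hu, -⟩ := hV 1
    exact_mod_cast Finset.card_pos.2 ⟨u, hu⟩
  set β : ℝ := η / U.card with hβ
  have hβ0 : 0 < β := div_pos hη hUc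
  obtain ⟨X, f, hf, hf1, hfV⟩ := exists_trig V hVo hV1 hβ0
  refine ⟨X, ?_, fun F => ?_⟩
  · by_contra hX
    rw [Finset.not_nonempty_iff_eq_empty] at hX
    subst hX
    simp only [Finset.coe_empty, Set.image_empty, Submodule.span_empty, Submodule.mem_bot] at hf
    rw [hf] at hf1
    simp at hf1
  have h1 := norm_eval_one_sq_le μ _ _ (prod_comp_mem γ X F f hf)
  have h2 : ‖(∏ s ∈ F, f.comp (γ s : C(K, K))) 1‖ ^ 2 = 1 := by
    rw [ContinuousMap.prod_apply]
    simp [hf1]
  rw [h2] at h1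
  have h3 : ∫ x, ‖(∏ s ∈ F, f.comp (γ s : C(K, K))) x‖ ^ 2 ∂μ ≤
      ∫ x, ∏ s ∈ F, (V.indicator (1 : K → ℝ) (γ s x) + β) ∂μ := by
    apply integral_mono_of_nonneg
    · exact Eventually.of_forall fun x => by positivity
    · have hmeas : Measurable (fun x => ∏ s ∈ F, (V.indicator (1 : K → ℝ) (γ s x) + β)) := by
        apply Finset.measurable_prod
        intro s _
        apply Measurable.add_const
        exact (measurable_one.indicator hVo.measurableSet).comp (γ s).continuous_toFun.measurable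
      refine Integrable.of_bound hmeas.aestronglyMeasurable ((1 + β) ^ F.card)
        (Eventually.of_forall fun x => ?_)
      rw [norm_prod]
      rw [← Finset.prod_const]
      refine Finset.prod_le_prod (fun _ _ => norm_nonneg _) fun s _ => ?_
      have h01 : 0 ≤ V.indicator (1 : K → ℝ) (γ s x) := indicator_nonneg (fun _ _ => zero_le_one) _
      have h02 : V.indicator (1 : K → ℝ) (γ s x) ≤ 1 := indicator_le_self' (fun _ _ => zero_le_one) _
      rw [Real.norm_of_nonneg (by positivity)]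
      linarith
    · refine Eventually.of_forall fun x => ?_
      simp only
      rw [ContinuousMap.prod_apply, norm_prod, ← Finset.prod_pow]
      exact Finset.prod_le_prod (fun _ _ => by positivity) fun s _ => hfV _
  have h4 := integral_bound μ γ U hc V hVo hV1 hV F hβ0.le
  set N : ℝ := (minCard (joinCover γ (U : Set (Set K)) F) : ℝ)
  set I : ℝ := ∫ x, ∏ s ∈ F, (V.indicator (1 : K → ℝ) (γ s x) + β) ∂μ
  set t : ℝ := ((trajectory γ X F).card : ℝ)
  have hN : 0 ≤ N := Nat.cast_nonneg _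
  have ht : 0 ≤ t := Nat.cast_nonneg _
  calc N = N * 1 := (mul_one _).symm
    _ ≤ N * (t * I) := by
        gcongr
        exact h1.trans (by gcongr)
    _ = t * (N * I) := by ring
    _ ≤ t * (1 + β * U.card) ^ F.card := by gcongr
    _ ≤ t * Real.exp (η * F.card) := by
        gcongr
        rw [hβ, div_mul_cancel₀ _ hUc.ne', mul_comm η, Real.exp_nat_mul]
        gcongr
        linarith [Real.add_one_le_exp η]
    _ = _ := mul_comm _ _
theorem minCard_mem (γ : S → (K →ₜ* K)) (U : Finset (Set K)) (hc : ⋃₀ (U : Set (Set K)) = univ)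
    (F : Finset S) : ∃ C : Finset (Set K), (C : Set (Set K)) ⊆ joinCover γ (U : Set (Set K)) F ∧
      ⋃₀ (C : Set (Set K)) = univ ∧ C.card = minCard (joinCover γ (U : Set (Set K)) F) := by
  classical
  apply Nat.sInf_mem (s := {n | ∃ C : Finset (Set K), (C : Set (Set K)) ⊆
    joinCover γ (U : Set (Set K)) F ∧ ⋃₀ (C : Set (Set K)) = univ ∧ C.card = n})
  choose w hw using fun y : K => (by
    have : y ∈ ⋃₀ (U : Set (Set K)) := by rw [hc]; trivial
    exact this : ∃ t ∈ (U : Set (Set K)), y ∈ t)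
  by_cases hU : ∃ u0, u0 ∈ U
  · obtain ⟨u0, hu0⟩ := hU
    let cc : ((a : S) → a ∈ F → Set K) → S → Set K := fun p s =>
      if h : s ∈ F then p s h else u0
    let C : Finset (Set K) := (F.pi (fun _ => U)).image (fun p => ⋂ s ∈ F, γ s ⁻¹' cc p s)
    refine ⟨_, C, ?_, ?_, rfl⟩
    · intro W hW
      rw [Finset.mem_coe, Finset.mem_image] at hW
      obtain ⟨p, hp, rfl⟩ := hW
      rw [Finset.mem_pi] at hp
      refine ⟨cc p, fun s hs => ?_, rfl⟩
      simp only [cc, dif_pos hs]
      exact hp s hs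
    · rw [eq_univ_iff_forall]
      intro y
      refine ⟨⋂ s ∈ F, γ s ⁻¹' cc (fun s _ => w (γ s y)) s, ?_, ?_⟩
      · rw [Finset.mem_coe, Finset.mem_image]
        refine ⟨fun s _ => w (γ s y), ?_, rfl⟩
        rw [Finset.mem_pi]
        exact fun s _ => (hw (γ s y)).1
      · simp only [mem_iInter, mem_preimage]
        intro s hs
        simp only [cc, dif_pos hs]
        exact (hw (γ s y)).2
  · exact absurd ⟨_, (hw 1).1⟩ hU

theorem exists_fine_cover (X : Finset (PontryaginDual K)) {ε : ℝ} (hε : 0 < ε) :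
    ∃ U : Finset (Set K), (∀ u ∈ U, IsOpen u) ∧ ⋃₀ (U : Set (Set K)) = univ ∧
      ∀ u ∈ U, ∀ x ∈ u, ∀ y ∈ u, ∀ χ ∈ X, ‖((χ x : Circle) : ℂ) - χ y‖ < ε := by
  classical
  let B : K → Set K := fun x => ⋂ χ ∈ X, {y | ‖((χ y : Circle) : ℂ) - χ x‖ < ε / 2}
  have hB : ∀ x, IsOpen (B x) := by
    intro x
    apply isOpen_biInter_finset
    intro χ _
    exact isOpen_lt (by fun_prop) continuous_const
  have hxB : ∀ x, x ∈ B x := by
    intro x
    simp only [B, mem_iInter]
    intro χ _
    change ‖((χ x : Circle) : ℂ) - χ x‖ < ε / 2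
    simpa using half_pos hε
  obtain ⟨t, -, ht⟩ := isCompact_univ.elim_nhds_subcover B (fun x _ => (hB x).mem_nhds (hxB x))
  refine ⟨t.image B, ?_, ?_, ?_⟩
  · intro u hu
    obtain ⟨x, _, rfl⟩ := Finset.mem_image.1 hu
    exact hB x
  · rw [eq_univ_iff_forall]
    intro y
    obtain ⟨x, hx, hy⟩ := mem_iUnion₂.1 (ht (mem_univ y))
    exact ⟨B x, by simpa using ⟨x, hx, rfl⟩, hy⟩
  · intro u hu x hx y hy χ hχ
    obtain ⟨z, _, rfl⟩ := Finset.mem_image.1 hu
    simp only [B, mem_iInter] at hx hy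
    have h1 : ‖((χ x : Circle) : ℂ) - χ z‖ < ε / 2 := hx χ hχ
    have h2 : ‖((χ y : Circle) : ℂ) - χ z‖ < ε / 2 := hy χ hχ
    calc ‖((χ x : Circle) : ℂ) - χ y‖ = ‖(((χ x : Circle) : ℂ) - χ z) - (((χ y : Circle) : ℂ) - χ z)‖ := by ring_nf
      _ ≤ _ := norm_sub_le _ _
      _ < ε := by linarith


theorem exists_sel {α : Type*} [MeasurableSpace α] (C : Finset (Set α)) (hC : ∀ W ∈ C, MeasurableSet W) :
    ∃ j : α → Set α, (∀ x ∈ ⋃₀ (C : Set (Set α)), j x ∈ C ∧ x ∈ j x) ∧
      ∀ W, MeasurableSet {x | j x = W} := by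
  classical
  induction C using Finset.induction_on with
  | empty =>
    refine ⟨fun _ => ∅, by simp, fun W => ?_⟩
    exact MeasurableSet.const _
  | insert W0 C _ ih =>
    obtain ⟨j, hj, hjm⟩ := ih (fun W hW => hC W (Finset.mem_insert_of_mem hW))
    have hW0 := hC W0 (Finset.mem_insert_self _ _)
    refine ⟨fun x => if x ∈ W0 then W0 else j x, ?_, ?_⟩
    · intro x hx
      by_cases hxW : x ∈ W0
      · simp only [hxW, if_true]
        exact ⟨Finset.mem_insert_self _ _, trivial⟩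
      · simp only [hxW, if_false]
        have : x ∈ ⋃₀ (C : Set (Set α)) := by
          obtain ⟨W, hW, hxW'⟩ := hx
          rw [Finset.mem_coe, Finset.mem_insert] at hW
          rcases hW with rfl | hW
          · exact absurd hxW' hxW
          · exact ⟨W, hW, hxW'⟩
        exact ⟨Finset.mem_insert_of_mem (hj x this).1, (hj x this).2⟩
    · intro W
      have : {x | (if x ∈ W0 then W0 else j x) = W} =
          (W0 ∩ {_x | W0 = W}) ∪ (W0ᶜ ∩ {x | j x = W}) := by
        ext x
        by_cases hxW : x ∈ W0 <;> simp [hxW]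
      rw [this]
      exact (hW0.inter (MeasurableSet.const _)).union (hW0.compl.inter (hjm W))



/-- The class in `L²(μ)` of a function (`0` if it is not square integrable). -/
noncomputable def toL (μ : Measure K) (g : K → ℂ) : Lp ℂ 2 μ := by
  classical
  exact if h : MemLp g 2 μ then h.toLp g else 0

theorem toL_eq (μ : Measure K) {g : K → ℂ} (h : MemLp g 2 μ) : toL μ g = h.toLp g := by
  unfold toL
  rw [dif_pos h]

/-- If the functions of a finite set `G` are square integrable, then the characters in `T`, if each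
is uniformly within `r` of the span of `G`, satisfy `|T|(1-r²) ≤ |G|`. -/
theorem card_le_of_approx (μ : Measure K) [μ.IsMulLeftInvariant] [IsProbabilityMeasure μ]
    (G : Finset (K → ℂ)) (hG : ∀ g ∈ G, MemLp g 2 μ) (T : Finset (PontryaginDual K))
    {r : ℝ} (hr : 0 ≤ r)
    (h : ∀ ξ ∈ T, ∃ g ∈ Submodule.span ℂ (G : Set (K → ℂ)), ∀ x, ‖((ξ x : Circle) : ℂ) - g x‖ ≤ r) :
    (T.card : ℝ) * (1 - r ^ 2) ≤ G.card := by
  classical
  let V : Submodule ℂ (Lp ℂ 2 μ) := Submodule.span ℂ ((G.image (toL μ) : Finset (Lp ℂ 2 μ)) : Set (Lp ℂ 2 μ))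
  have hV : FiniteDimensional ℂ V := FiniteDimensional.span_finset ℂ _
  have hVd : Module.finrank ℂ V ≤ G.card :=
    (finrank_span_finset_le_card (R := ℂ) (G.image (toL μ))).trans Finset.card_image_le
  let M : Submodule ℂ (K → ℂ) :=
    { carrier := {g | MemLp g 2 μ ∧ toL μ g ∈ V}
      zero_mem' := by
        have h0 : MemLp (0 : K → ℂ) 2 μ := MemLp.zero
        refine ⟨h0, ?_⟩
        rw [toL_eq μ h0, MemLp.toLp_zero]
        exact zero_mem _
      add_mem' := by
        rintro f g ⟨hf, hf'⟩ ⟨hg, hg'⟩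
        refine ⟨hf.add hg, ?_⟩
        rw [toL_eq μ (hf.add hg), MemLp.toLp_add hf hg, ← toL_eq μ hf, ← toL_eq μ hg]
        exact add_mem hf' hg'
      smul_mem' := by
        rintro c f ⟨hf, hf'⟩
        refine ⟨hf.const_smul c, ?_⟩
        rw [toL_eq μ (hf.const_smul c), MemLp.toLp_const_smul c hf, ← toL_eq μ hf]
        exact Submodule.smul_mem _ _ hf' }
  have hGM : Submodule.span ℂ (G : Set (K → ℂ)) ≤ M := by
    rw [Submodule.span_le]
    intro g hg
    exact ⟨hG g hg, Submodule.subset_span (by simpa using ⟨g, hg, rfl⟩)⟩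
  refine (card_mul_le_finrank T _ (orthonormal_char μ) V r ?_).trans (by exact_mod_cast hVd)
  intro ξ hξ
  obtain ⟨g, hg, hgr⟩ := h ξ hξ
  obtain ⟨hg2, hgV⟩ := hGM hg
  refine ⟨toL μ g, hgV, ?_⟩
  rw [toL_eq μ hg2]
  have hb : ∀ᵐ x ∂μ, ‖(ContinuousMap.toLp 2 μ ℂ (chC ξ) - hg2.toLp g : Lp ℂ 2 μ) x‖ ≤ r := by
    filter_upwards [Lp.coeFn_sub (ContinuousMap.toLp 2 μ ℂ (chC ξ)) (hg2.toLp g),
      (chC ξ).coeFn_toLp (p := 2) (𝕜 := ℂ) μ, hg2.coeFn_toLp] with x h1 h2 h3
    rw [h1, Pi.sub_apply, h2, h3]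
    exact hgr x
  have h5 := Lp.norm_le_of_ae_bound hr hb
  have h6 : measureUnivNNReal μ = 1 := by simp [measureUnivNNReal]
  rw [h6] at h5
  simpa using h5

theorem lower_core (μ : Measure K) [μ.IsMulLeftInvariant] [IsProbabilityMeasure μ]
    (γ : S → (K →ₜ* K)) (X : Finset (PontryaginDual K)) (U : Finset (Set K))
    (hU : ∀ u ∈ U, IsOpen u) (hc : ⋃₀ (U : Set (Set K)) = univ) {ε : ℝ}
    (hfine : ∀ u ∈ U, ∀ x ∈ u, ∀ y ∈ u, ∀ χ ∈ X, ‖((χ x : Circle) : ℂ) - χ y‖ < ε)
    (F : Finset S) (k : ℝ) {r : ℝ} (hr : 0 ≤ r)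
    (hrε : ∑ A ∈ F.powerset with ¬ (A.card : ℝ) ≤ k, ε ^ A.card ≤ r) :
    ((trajectory γ X F).card : ℝ) * (1 - r ^ 2) ≤
      minCard (joinCover γ (U : Set (Set K)) F) *
        ∑ A ∈ F.powerset with (A.card : ℝ) ≤ k, (X.card : ℝ) ^ A.card := by
  classical
  obtain ⟨C, hCsub, hCcov, hCcard⟩ := minCard_mem γ U hc F
  have hCm : ∀ W ∈ C, MeasurableSet W := by
    intro W hW
    obtain ⟨c, hcU, rfl⟩ := hCsub hW
    exact (isOpen_biInter_finset fun s hs => (hU _ (hcU s hs)).preimage (γ s).continuous_toFun).measurableSet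
  obtain ⟨j, hj, hjm⟩ := exists_sel C hCm
  have hjC : ∀ x, j x ∈ C := fun x => (hj x (by rw [hCcov]; trivial)).1
  have hxj : ∀ x, x ∈ j x := fun x => (hj x (by rw [hCcov]; trivial)).2
  let b : Set K → K := fun W => if h : W.Nonempty then h.some else 1
  have hb : ∀ x, b (j x) ∈ j x := by
    intro x
    have : (j x).Nonempty := ⟨x, hxj x⟩
    simp only [b, dif_pos this]
    exact this.some_mem
  -- small variation
  have hvar : ∀ x, ∀ s ∈ F, ∀ χ ∈ X, ‖((χ (γ s (x * (b (j x))⁻¹)) : Circle) : ℂ) - 1‖ ≤ ε := by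
    intro x s hs χ hχ
    obtain ⟨c, hcU, hjx⟩ := hCsub (hjC x)
    have h1 : γ s x ∈ c s := by
      have := hxj x
      rw [hjx] at this
      simp only [mem_iInter, mem_preimage] at this
      exact this s hs
    have h2 : γ s (b (j x)) ∈ c s := by
      have := hb x
      rw [hjx] at this
      simp only [mem_iInter, mem_preimage] at this
      rw [hjx]
      exact this s hs
    have h3 := hfine (c s) (hcU s hs) _ h1 _ h2 χ hχ
    have h4 : ((χ (γ s x) : Circle) : ℂ) - χ (γ s (b (j x))) =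
        (((χ (γ s (x * (b (j x))⁻¹)) : Circle) : ℂ) - 1) * χ (γ s (b (j x))) := by
      rw [map_mul, map_mul, map_inv, map_inv, Circle.coe_mul, Circle.coe_inv, sub_mul, one_mul,
        inv_mul_cancel_right₀ (Circle.coe_ne_zero _)]
    rw [h4, norm_mul, Circle.norm_coe, mul_one] at h3
    exact h3.le
  set P : Finset (Finset S) := F.powerset.filter (fun A => (A.card : ℝ) ≤ k) with hP
  let Gf : (W : Set K) → (A : Finset S) → ((s : S) → s ∈ A → PontryaginDual K) → K → ℂ :=
    fun W A σ x => if j x = W then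
      ∏ s ∈ A.attach, (((σ s.1 s.2 (γ s.1 (x * (b W)⁻¹)) : Circle) : ℂ) - 1) else 0
  let G : Finset (K → ℂ) := (C ×ˢ P).biUnion (fun p => (p.2.pi (fun _ => X)).image (Gf p.1 p.2))
  have hGcard : (G.card : ℝ) ≤ C.card * ∑ A ∈ P, (X.card : ℝ) ^ A.card := by
    have h1 : G.card ≤ ∑ p ∈ C ×ˢ P, X.card ^ p.2.card := by
      refine Finset.card_biUnion_le.trans (Finset.sum_le_sum fun p _ => ?_)
      refine Finset.card_image_le.trans ?_
      rw [Finset.card_pi, Finset.prod_const]
    rw [Finset.sum_product] at h1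
    simp only [Finset.sum_const, smul_eq_mul] at h1
    exact_mod_cast h1
  have hGm : ∀ g ∈ G, MemLp g 2 μ := by
    intro g hg
    simp only [G, Finset.mem_biUnion, Finset.mem_image] at hg
    obtain ⟨⟨W, A⟩, -, σ, -, rfl⟩ := hg
    have hmeas : Measurable (Gf W A σ) := by
      apply Measurable.ite (hjm W) _ measurable_const
      apply Finset.measurable_prod
      intro s _
      apply Continuous.measurable
      have h1 : Continuous (fun x : K => γ s.1 (x * (b W)⁻¹)) :=
        (γ s.1).continuous_toFun.comp (continuous_mul_const _)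
      fun_prop
    refine MemLp.of_bound hmeas.aestronglyMeasurable (2 ^ A.card) (Eventually.of_forall fun x => ?_)
    simp only [Gf]
    split_ifs
    · rw [norm_prod]
      refine (Finset.prod_le_prod (fun _ _ => norm_nonneg _) (g := fun _ => (2 : ℝ)) fun s _ => ?_).trans ?_
      · refine (norm_sub_le _ _).trans ?_
        rw [Circle.norm_coe, norm_one]
        norm_num
      · simp
    · simp
  have hT : trajectory γ X F = ∏ s ∈ F, X.image (PontryaginDual.map (γ s)) := by
    unfold trajectory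
    congr!
  rw [← hCcard]
  refine (card_le_of_approx μ G hGm (trajectory γ X F) hr ?_).trans hGcard
  intro ξ hξ
  rw [hT, ← Finset.mem_coe, Finset.coe_prod, mem_finsetProd] at hξ
  obtain ⟨g0, hg0, hg0ξ⟩ := hξ
  have hχ : ∀ s, ∃ χ : PontryaginDual K, s ∈ F → χ ∈ X ∧ PontryaginDual.map (γ s) χ = g0 s := by
    intro s
    by_cases hs : s ∈ F
    · have := hg0 hs
      rw [Finset.coe_image] at this
      obtain ⟨χ, hχ, h⟩ := this
      exact ⟨χ, fun _ => ⟨hχ, h⟩⟩
    · exact ⟨1, fun h => absurd h hs⟩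
  choose χ hχX hχg using hχ
  have hξ : ∀ x, ((ξ x : Circle) : ℂ) = ∏ s ∈ F, ((χ s (γ s x) : Circle) : ℂ) := by
    intro x
    let ev : PontryaginDual K →* ℂ :=
      { toFun := fun ψ => ((ψ x : Circle) : ℂ)
        map_one' := rfl
        map_mul' := fun _ _ => rfl }
    change ev ξ = _
    rw [← hg0ξ, map_prod]
    refine Finset.prod_congr rfl fun s hs => ?_
    rw [← hχg s hs]
    rfl
  let a : K → Finset S → ℂ := fun x A =>
    ∏ s ∈ A, (((χ s (γ s (x * (b (j x))⁻¹)) : Circle) : ℂ) - 1)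
  have ha : ∀ x, ∀ A ∈ F.powerset, ‖a x A‖ ≤ ε ^ A.card := by
    intro x A hA
    rw [Finset.mem_powerset] at hA
    simp only [a]
    rw [norm_prod, ← Finset.prod_const]
    exact Finset.prod_le_prod (fun _ _ => norm_nonneg _) fun s hs =>
      hvar x s (hA hs) (χ s) (hχX s (hA hs))
  have hexp : ∀ x, ((ξ x : Circle) : ℂ) = ξ (b (j x)) * ∑ A ∈ F.powerset, a x A := by
    intro x
    have h1 : ∑ A ∈ F.powerset, a x A = ∏ s ∈ F, (1 + ((((χ s (γ s (x * (b (j x))⁻¹)) : Circle) : ℂ)) - 1)) := by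
      rw [Finset.prod_one_add]
    rw [h1, hξ, hξ, ← Finset.prod_mul_distrib]
    refine Finset.prod_congr rfl fun s _ => ?_
    rw [map_mul, map_mul, map_inv, map_inv, Circle.coe_mul, Circle.coe_inv]
    field_simp
    ring
  refine ⟨fun x => ξ (b (j x)) * ∑ A ∈ P, a x A, ?_, fun x => ?_⟩
  · have h1 : (fun x => ((ξ (b (j x)) : Circle) : ℂ) * ∑ A ∈ P, a x A) =
        ∑ W ∈ C, ((ξ (b W) : Circle) : ℂ) • ∑ A ∈ P, Gf W A (fun s _ => χ s) := by
      funext x
      rw [Finset.sum_apply, Finset.sum_eq_single (j x)]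
      · rw [Pi.smul_apply, Finset.sum_apply, smul_eq_mul]
        congr 1
        refine Finset.sum_congr rfl fun A _ => ?_
        simp only [a, Gf, if_true]
        rw [Finset.prod_attach A (fun s => (((χ s (γ s (x * (b (j x))⁻¹)) : Circle) : ℂ) - 1))]
      · intro W _ hW
        rw [Pi.smul_apply, Finset.sum_apply, smul_eq_mul]
        rw [Finset.sum_eq_zero, mul_zero]
        intro A _
        simp only [Gf, if_neg hW.symm]
      · intro h
        exact absurd (hjC x) h
    rw [h1]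
    refine Submodule.sum_mem _ fun W hW => Submodule.smul_mem _ _ (Submodule.sum_mem _ fun A hA => ?_)
    apply Submodule.subset_span
    simp only [G, Finset.mem_coe, Finset.mem_biUnion, Finset.mem_image]
    refine ⟨(W, A), Finset.mem_product.2 ⟨hW, hA⟩, fun s _ => χ s, ?_, rfl⟩
    rw [Finset.mem_pi]
    intro s hs
    exact hχX s ((Finset.mem_powerset.1 (Finset.mem_filter.1 hA).1) hs)
  · rw [hexp x, ← Finset.sum_filter_add_sum_filter_not F.powerset (fun A => (A.card : ℝ) ≤ k),
      mul_add, add_sub_cancel_left, norm_mul, Circle.norm_coe, one_mul]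
    refine (norm_sum_le _ _).trans (le_trans ?_ hrε)
    exact Finset.sum_le_sum fun A hA => ha x A (Finset.mem_filter.1 hA).1

theorem lower_A (μ : Measure K) [μ.IsMulLeftInvariant] [IsProbabilityMeasure μ]
    (γ : S → (K →ₜ* K)) (X : Finset (PontryaginDual K)) (hX : X.Nonempty) {η : ℝ} (hη : 0 < η) :
    ∃ U : Finset (Set K), (∀ u ∈ U, IsOpen u) ∧ ⋃₀ (U : Set (Set K)) = univ ∧
      ∀ F : Finset S, F.Nonempty → ((trajectory γ X F).card : ℝ) ≤
        Real.exp (η * F.card) * minCard (joinCover γ (U : Set (Set K)) F) := by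
  classical
  set q : ℝ := (X.card : ℝ) with hq
  have hq0 : 0 < q := by rw [hq]; exact_mod_cast Finset.card_pos.2 hX
  -- constants
  set a : ℝ := max 1 (Real.log (4 * q / η)) with ha
  have ha0 : 0 < a := lt_max_of_lt_left one_pos
  have haq : q * Real.exp (-a) ≤ η / 4 := by
    have h1 : 4 * q / η ≤ Real.exp a := by
      rw [← Real.exp_log (show 0 < 4 * q / η by positivity)]
      exact Real.exp_le_exp.2 (le_max_right _ _)
    rw [Real.exp_neg, ← div_eq_mul_inv, div_le_iff₀ (Real.exp_pos _)]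
    rw [div_le_iff₀ hη] at h1
    linarith
  set δ : ℝ := η / (4 * a) with hδ
  have hδ0 : 0 < δ := by positivity
  have haδ : a * δ = η / 4 := by rw [hδ]; field_simp
  set r : ℝ := Real.sqrt (1 - Real.exp (-(η / 2))) with hr
  have hexp1 : Real.exp (-(η / 2)) < 1 := by
    rw [Real.exp_lt_one_iff]; linarith
  have hr0 : 0 < r := Real.sqrt_pos.2 (by linarith)
  have hr2 : 1 - r ^ 2 = Real.exp (-(η / 2)) := by
    rw [hr, Real.sq_sqrt (by linarith)]; ring
  have hr1 : r ≤ 1 := by
    have := Real.exp_pos (-(η / 2))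
    nlinarith
  set b : ℝ := max 1 (Real.log (2 / r) / δ) with hb
  have hb0 : 0 < b := lt_max_of_lt_left one_pos
  have hbr : Real.exp (-(b * δ)) ≤ r / 2 := by
    have h1 : Real.log (2 / r) ≤ b * δ := by
      rw [← div_le_iff₀ hδ0]
      exact le_max_right _ _
    have h2 : 2 / r ≤ Real.exp (b * δ) := by
      rw [← Real.exp_log (show 0 < 2 / r by positivity)]
      exact Real.exp_le_exp.2 h1
    rw [Real.exp_neg, inv_le_comm₀ (Real.exp_pos _) (by positivity), inv_div]
    exact h2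
  obtain ⟨U, hU, hc, hfine⟩ := exists_fine_cover X (Real.exp_pos (-b))
  refine ⟨U, hU, hc, fun F hF => ?_⟩
  set n : ℕ := F.card with hn
  have hn1 : 1 ≤ n := Finset.card_pos.2 hF
  have hn1' : (1 : ℝ) ≤ n := by exact_mod_cast hn1
  have hrε : ∑ A ∈ F.powerset with ¬ (A.card : ℝ) ≤ δ * n, Real.exp (-b) ^ A.card ≤ r := by
    calc ∑ A ∈ F.powerset with ¬ (A.card : ℝ) ≤ δ * n, Real.exp (-b) ^ A.card
        ≤ ∑ A ∈ F.powerset with ¬ (A.card : ℝ) ≤ δ * n, Real.exp (-(b * δ)) ^ n := by
          refine Finset.sum_le_sum fun A hA => ?_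
          have h1 := (Finset.mem_filter.1 hA).2
          push Not at h1
          rw [← Real.exp_nat_mul, ← Real.exp_nat_mul]
          apply Real.exp_le_exp.2
          nlinarith
      _ ≤ ∑ A ∈ F.powerset, Real.exp (-(b * δ)) ^ n := by
          apply Finset.sum_le_sum_of_subset_of_nonneg (Finset.filter_subset _ _)
          intro _ _ _
          positivity
      _ = (2 * Real.exp (-(b * δ))) ^ n := by
          rw [Finset.sum_const, Finset.card_powerset, nsmul_eq_mul, mul_pow]
          push_cast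
          rfl
      _ ≤ r ^ n := by
          gcongr
          linarith
      _ ≤ r ^ 1 := pow_le_pow_of_le_one hr0.le hr1 hn1
      _ = r := pow_one r
  have hqs : ∑ A ∈ F.powerset with (A.card : ℝ) ≤ δ * n, q ^ A.card ≤ Real.exp (η / 2 * n) := by
    calc ∑ A ∈ F.powerset with (A.card : ℝ) ≤ δ * n, q ^ A.card
        ≤ ∑ A ∈ F.powerset with (A.card : ℝ) ≤ δ * n,
            Real.exp (a * (δ * n)) * ((q * Real.exp (-a)) ^ A.card * 1 ^ (F.card - A.card)) := by
          refine Finset.sum_le_sum fun A hA => ?_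
          have h1 := (Finset.mem_filter.1 hA).2
          rw [one_pow, mul_one, mul_pow, ← mul_assoc, mul_comm (Real.exp _) (q ^ _), mul_assoc,
            ← Real.exp_nat_mul, ← Real.exp_add]
          apply le_mul_of_one_le_right (by positivity)
          apply Real.one_le_exp
          nlinarith
      _ ≤ ∑ A ∈ F.powerset,
            Real.exp (a * (δ * n)) * ((q * Real.exp (-a)) ^ A.card * 1 ^ (F.card - A.card)) := by
          apply Finset.sum_le_sum_of_subset_of_nonneg (Finset.filter_subset _ _)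
          intro _ _ _
          positivity
      _ = Real.exp (a * (δ * n)) * (q * Real.exp (-a) + 1) ^ n := by
          rw [← Finset.mul_sum, Finset.sum_pow_mul_eq_add_pow]
      _ ≤ Real.exp (a * (δ * n)) * Real.exp (η / 4) ^ n := by
          gcongr
          exact (add_le_add_left haq 1).trans (Real.add_one_le_exp _)
      _ = Real.exp (η / 2 * n) := by
          rw [← Real.exp_nat_mul, ← Real.exp_add]
          congr 1
          rw [← mul_assoc, haδ]
          ring
  have hmain := lower_core μ γ X U hU hc hfine F (δ * n) hr0.le hrε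
  rw [hr2] at hmain
  have hN : (0 : ℝ) ≤ minCard (joinCover γ (U : Set (Set K)) F) := Nat.cast_nonneg _
  calc ((trajectory γ X F).card : ℝ)
      = ((trajectory γ X F).card * Real.exp (-(η / 2))) * Real.exp (η / 2) := by
        rw [mul_assoc, ← Real.exp_add]; simp
    _ ≤ (minCard (joinCover γ (U : Set (Set K)) F) * Real.exp (η / 2 * n)) * Real.exp (η / 2) :=
        mul_le_mul_of_nonneg_right (hmain.trans (mul_le_mul_of_nonneg_left hqs hN))
          (Real.exp_pos _).le
    _ = Real.exp (η / 2 * n + η / 2) * minCard (joinCover γ (U : Set (Set K)) F) := by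
        rw [Real.exp_add]; ring
    _ ≤ _ := by
        gcongr
        nlinarith

end Meas

theorem ereal_le {a b : EReal} (h : ∀ ε : ℝ, 0 < ε → a ≤ (ε : EReal) + b) : a ≤ b := by
  by_contra hcon
  push Not at hcon
  obtain ⟨r, hbr, hra⟩ := EReal.lt_iff_exists_real_btwn.1 hcon
  induction b with
  | bot =>
    have := h 1 one_pos
    rw [EReal.add_bot] at this
    exact absurd (lt_of_lt_of_le hcon this) (lt_irrefl _)
  | top => exact absurd hbr (not_lt.2 le_top)
  | coe b =>
    have hbr' : b < r := by exact_mod_cast hbr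
    have h1 := h (r - b) (by linarith)
    rw [← EReal.coe_add, sub_add_cancel] at h1
    exact absurd (lt_of_lt_of_le hra h1) (lt_irrefl _)

theorem continuousAt_const_add (η : ℝ) (t : EReal) :
    ContinuousAt (fun t : EReal => (η : EReal) + t) t := by
  have h1 : ContinuousAt (fun p : EReal × EReal => p.1 + p.2) ((η : EReal), t) :=
    EReal.continuousAt_add (Or.inl (EReal.coe_ne_top _)) (Or.inl (EReal.coe_ne_bot _))
  exact h1.comp (f := fun t : EReal => ((η : EReal), t)) (by fun_prop)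

theorem limsup_le_add {ι : Type*} (l : Filter ι) [l.NeBot] (x y : ι → EReal) (η : ℝ)
    (h : ∀ i, x i ≤ η + y i) : limsup x l ≤ η + limsup y l := by
  have hmono : Monotone (fun t : EReal => (η : EReal) + t) := fun a b hab => by
    simp only; gcongr
  have h2 : (η : EReal) + limsup y l = limsup ((fun t : EReal => (η : EReal) + t) ∘ y) l :=
    hmono.map_limsup_of_continuousAt (F := l) y (continuousAt_const_add η _)
  rw [h2]
  exact limsup_le_limsup (Eventually.of_forall h)

theorem liminf_le_add {ι : Type*} (l : Filter ι) [l.NeBot] (x y : ι → EReal) (η : ℝ)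
    (h : ∀ i, x i ≤ η + y i) : liminf x l ≤ η + liminf y l := by
  have hmono : Monotone (fun t : EReal => (η : EReal) + t) := fun a b hab => by
    simp only; gcongr
  have h2 : (η : EReal) + liminf y l = liminf ((fun t : EReal => (η : EReal) + t) ∘ y) l :=
    hmono.map_liminf_of_continuousAt (F := l) y (continuousAt_const_add η _)
  rw [h2]
  exact liminf_le_liminf (Eventually.of_forall h)

theorem log_div_le {N t n : ℕ} {η : ℝ} (hη : 0 < η) (hn : 1 ≤ n)
    (h : (N : ℝ) ≤ Real.exp (η * n) * t) :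
    ((Real.log N / n : ℝ) : EReal) ≤ (η : EReal) + ((Real.log t / n : ℝ) : EReal) := by
  have hn' : (0 : ℝ) < n := by exact_mod_cast hn
  rw [← EReal.coe_add]
  apply EReal.coe_le_coe_iff.2
  rw [div_le_iff₀ hn', add_mul, div_mul_cancel₀ _ hn'.ne']
  rcases Nat.eq_zero_or_pos N with h0 | h0
  · subst h0
    have := Real.log_natCast_nonneg t
    simp only [Nat.cast_zero, Real.log_zero]
    positivity
  · have hN : (0 : ℝ) < N := by exact_mod_cast h0
    have ht : (0 : ℝ) < t := by
      by_contra hcon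
      have : (t : ℝ) = 0 := le_antisymm (not_lt.1 hcon) (Nat.cast_nonneg _)
      rw [this, mul_zero] at h
      linarith
    calc Real.log N ≤ Real.log (Real.exp (η * n) * t) := Real.log_le_log hN h
      _ = _ := by rw [Real.log_mul (Real.exp_pos _).ne' ht.ne', Real.log_exp]

theorem exists_X (γ : S → (K →ₜ* K)) (U : FinOpenCover K) {η : ℝ} (hη : 0 < η) :
    ∃ X : {X : Finset (PontryaginDual K) // X.Nonempty}, ∀ F : Finset S, F.Nonempty →
      topRate γ U F ≤ η + algRate γ X.1 F := by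
  let _ : MeasurableSpace K := borel K
  have _ : BorelSpace K := ⟨rfl⟩
  let μ : Measure K := Measure.haarMeasure ⊤
  have hμ : IsProbabilityMeasure μ := ⟨by
    have := Measure.haarMeasure_self (K₀ := (⊤ : TopologicalSpace.PositiveCompacts K))
    simpa using this⟩
  obtain ⟨X, hX, h⟩ := upper_B μ γ U.sets U.isOpen U.cover hη
  exact ⟨⟨X, hX⟩, fun F hF => log_div_le hη (Finset.card_pos.2 hF) (h F)⟩

theorem exists_U (γ : S → (K →ₜ* K)) (X : {X : Finset (PontryaginDual K) // X.Nonempty})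
    {η : ℝ} (hη : 0 < η) :
    ∃ U : FinOpenCover K, ∀ F : Finset S, F.Nonempty → algRate γ X.1 F ≤ η + topRate γ U F := by
  let _ : MeasurableSpace K := borel K
  have _ : BorelSpace K := ⟨rfl⟩
  let μ : Measure K := Measure.haarMeasure ⊤
  have hμ : IsProbabilityMeasure μ := ⟨by
    have := Measure.haarMeasure_self (K₀ := (⊤ : TopologicalSpace.PositiveCompacts K))
    simpa using this⟩
  obtain ⟨U, hU, hc, h⟩ := lower_A μ γ X.1 X.2 hη
  exact ⟨⟨U, hU, hc⟩, fun F hF => log_div_le hη (Finset.card_pos.2 hF) (h F hF)⟩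

/-- **Bridge Theorem.** For every compact Hausdorff abelian group `K`, every family `γ` of
continuous endomorphisms of `K` indexed by a set `S` (in particular every left action of a
cancellative left amenable monoid `S`) and every net `(F_i)` of non-empty finite subsets of `S` (in
particular every left Folner net; a net is a function on an index set with a filter on it), the
topological entropy of `γ` along `(F_i)` equals the algebraic entropy of the dual along `(F_i)`:
with upper limits, with lower limits, and with limits whenever these exist. -/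
theorem result {S : Type*} {K : Type*} [CommGroup K] [TopologicalSpace K] [IsTopologicalGroup K]
    [CompactSpace K] [T2Space K] (γ : S → (K →ₜ* K)) {ι : Type*} (l : Filter ι) [l.NeBot]
    (F : ι → Finset S) (hF : ∀ i, (F i).Nonempty) :
    ((⨆ U : FinOpenCover K, limsup (fun i => topRate γ U (F i)) l) =
      ⨆ X : {X : Finset (PontryaginDual K) // X.Nonempty}, limsup (fun i => algRate γ X.1 (F i)) l) ∧
    ((⨆ U : FinOpenCover K, liminf (fun i => topRate γ U (F i)) l) =
      ⨆ X : {X : Finset (PontryaginDual K) // X.Nonempty}, liminf (fun i => algRate γ X.1 (F i)) l) ∧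
    (∀ (h : FinOpenCover K → EReal) (a : {X : Finset (PontryaginDual K) // X.Nonempty} → EReal),
      (∀ U, Tendsto (fun i => topRate γ U (F i)) l (𝓝 (h U))) →
      (∀ X, Tendsto (fun i => algRate γ X.1 (F i)) l (𝓝 (a X))) →
      (⨆ U, h U) = ⨆ X, a X) := by
  have h1 : (⨆ U : FinOpenCover K, limsup (fun i => topRate γ U (F i)) l) =
      ⨆ X : {X : Finset (PontryaginDual K) // X.Nonempty}, limsup (fun i => algRate γ X.1 (F i)) l := by
    apply le_antisymm
    · refine iSup_le fun U => ereal_le fun η hη => ?_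
      obtain ⟨X, hX⟩ := exists_X γ U hη
      exact (limsup_le_add l _ _ η fun i => hX (F i) (hF i)).trans
        (add_le_add le_rfl (le_iSup (fun X : {X : Finset (PontryaginDual K) // X.Nonempty} =>
          limsup (fun i => algRate γ X.1 (F i)) l) X))
    · refine iSup_le fun X => ereal_le fun η hη => ?_
      obtain ⟨U, hU⟩ := exists_U γ X hη
      exact (limsup_le_add l _ _ η fun i => hU (F i) (hF i)).trans
        (add_le_add le_rfl (le_iSup (fun U : FinOpenCover K =>
          limsup (fun i => topRate γ U (F i)) l) U))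
  refine ⟨h1, ?_, ?_⟩
  · apply le_antisymm
    · refine iSup_le fun U => ereal_le fun η hη => ?_
      obtain ⟨X, hX⟩ := exists_X γ U hη
      exact (liminf_le_add l _ _ η fun i => hX (F i) (hF i)).trans
        (add_le_add le_rfl (le_iSup (fun X : {X : Finset (PontryaginDual K) // X.Nonempty} =>
          liminf (fun i => algRate γ X.1 (F i)) l) X))
    · refine iSup_le fun X => ereal_le fun η hη => ?_
      obtain ⟨U, hU⟩ := exists_U γ X hη
      exact (liminf_le_add l _ _ η fun i => hU (F i) (hF i)).trans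
        (add_le_add le_rfl (le_iSup (fun U : FinOpenCover K =>
          liminf (fun i => topRate γ U (F i)) l) U))
  · intro h a hh ha
    have e1 : h = fun U => limsup (fun i => topRate γ U (F i)) l :=
      funext fun U => (hh U).limsup_eq.symm
    have e2 : a = fun X => limsup (fun i => algRate γ X.1 (F i)) l :=
      funext fun X => (ha X).limsup_eq.symm
    rw [e1, e2]
    exact h1

end Pool.Agent.Results.MP_699bc8_an.BridgeTheorem
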